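import Pool.Agent.H32.VT.Profile
import Pool.Agent.H32.VT.Sharp

/-!
# The isoperimetric profile of vertex-transitive graphs

`cut G S` is the number of the edges with exactly one endpoint in `S`. All graphs are finite.

* **Main theorem.** Let `G` be vertex-transitive, `S` a nonempty set of vertices and `0 < t ≤ |S|`.
  There is a nonempty set `T` of at most `t` vertices with `cut T / |T| ≤ 330 cut S / t`, or there is
  a system of blocks, preserved by all automorphisms, whose blocks `A` satisfy `t < |A| < 2 |S|` and
  `cut A / |A| ≤ 83 cut S / t`.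
* Only the first alternative occurs if `t ≥ 1`, `|S| ≤ n / 2` and `n` is prime or the automorphism
  group is primitive; if `G` is connected and `t > 83 cut S`; if a transitive group of automorphisms
  has no proper subgroups of index less than `n / t`.
* Sets of all sizes: let `G` be `d`-regular. If the expansion `φ = cut S / (d |S|)` of a set
  with `μ n ≤ n / 2` vertices satisfies `φ max (μ, δ) ≤ η δ / (1320 log₂ (4 / η))` then for all `k`
  between `δ n` and `n` there is a set of `k` vertices of expansion at most `η`, or there are at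
  least `2` and less than `4 / (η δ)` blocks, all of expansion at most `332 φ μ / (η δ)`.
* This is optimal up to the constants and the factor `log (4 / η)`: for all primes `p ≥ 7 / (η δ)`
  there are circulant graphs with `p` vertices in which a set of `(p - 1) / 2` vertices has expansion
  at most `5 η δ`, but all sets with at most `δ p + 1` vertices have expansion more than `η`.
* The condition `t > 83 cut S` for connected graphs is necessary up to the constant: two complete
  graphs with `d` vertices joined by a perfect matching.

Idea of the proof. Let `Γ` be the automorphism group, `ρ (x, y)` the proportion of the translates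
`g S` which do not contain `y` among those which contain `x`. This is an invariant pseudometric, and
the average of `ρ (x, y)` over the neighbours `y` of `x` is the expansion of `S`. If all balls of
radius `ρ` have at most `20 ρ |S|` points, `1 / m ≤ ρ ≤ 5 / 8`, then the intersection of `m` random
translates of `S` has about `|S| / m` points and `m` times the expansion of `S`, by the second moment
method. If a ball of radius `ρ` is larger, consider the components of the graph whose edges are
the pairs at distance less than `2 ρ`. On a shortest path in this graph the balls around every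
second point are disjoint; so there is no space for a path which leaves the ball of radius `1 / 2`.
So the components are blocks with less than `2 |S|` points, and their expansion is at most
`1 / (2 ρ)` times the expansion of `S`, as points in different components have distance
at least `2 ρ`.
-/

set_option autoImplicit false

namespace Pool.Agent.Results.MP_8d8c46_lc.IsoperimetricProfile

open Pool.Agent.H32.VT Finset

/-- the expansion of a set of vertices in a `d`-regular graph -/
noncomputable def expansion {V : Type} [Fintype V] [DecidableEq V] (G : SimpleGraph V)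
    [DecidableRel G.Adj] (d : ℕ) (S : Finset V) : ℝ :=
  (cut G S : ℝ) / (d * S.card)

/-- vertex-transitive graphs -/
def IsTransitive {V : Type} (G : SimpleGraph V) : Prop :=
  ∀ u v : V, ∃ φ : G ≃g G, φ u = v

/-- a system of blocks: a partition of the vertices which is preserved by all automorphisms -/
def IsBlockSystem {V : Type} [Fintype V] [DecidableEq V] (G : SimpleGraph V)
    (P : Finpartition (univ : Finset V)) : Prop :=
  ∀ φ : G ≃g G, ∀ A ∈ P.parts, A.image φ ∈ P.parts

/-- there is a nonempty set `T` of at most `t` vertices with `cut T / |T| ≤ 330 cut S / t` -/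
def HasSmallSet {V : Type} [Fintype V] [DecidableEq V] (G : SimpleGraph V) [DecidableRel G.Adj]
    (S : Finset V) (t : ℝ) : Prop :=
  ∃ T : Finset V, T.Nonempty ∧ (T.card : ℝ) ≤ t ∧ (cut G T : ℝ) / T.card ≤ 330 * cut G S / t

/-- for all sizes from `δ n` to `n` there is a set of this size of expansion at most `η` -/
def SparseAtAllScales {V : Type} [Fintype V] [DecidableEq V] (G : SimpleGraph V)
    [DecidableRel G.Adj] (d : ℕ) (η δ : ℝ) : Prop :=
  ∀ k : ℕ, δ * Fintype.card V ≤ k → k ≤ Fintype.card V →
    ∃ T : Finset V, T.card = k ∧ expansion G d T ≤ η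

section aux
variable {V : Type} [Fintype V] [DecidableEq V] (G : SimpleGraph V) [DecidableRel G.Adj]
variable {Γ : Type} [Group Γ] [Fintype Γ] [DecidableEq Γ] [MulAction Γ V]

lemma ratio_le {S T : Finset V} {t c : ℝ} (hT : T.Nonempty) (ht : 0 < t)
    (h : t * cut G T ≤ c * cut G S * T.card) : (cut G T : ℝ) / T.card ≤ c * cut G S / t := by
  have hT0 : (0 : ℝ) < T.card := by exact_mod_cast hT.card_pos
  rw [div_le_div_iff₀ hT0 ht]
  linarith

lemma cls_nonempty {r : V → V → Prop} (hr : InvRel Γ r) (x : V) : (cls r x).Nonempty :=
  ⟨x, (mem_cls r x x).2 (hr.eqv.refl x)⟩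

lemma cls_ratio {S : Finset V} {t : ℝ} (ht : 0 < t) {r : V → V → Prop} (hr : InvRel Γ r)
    (h : ∀ x, t * wo (wt G) r x ≤ 83 * cut G S) (x : V) :
    (cut G (cls r x) : ℝ) / (cls r x).card ≤ 83 * cut G S / t := by
  apply ratio_le G (cls_nonempty hr x) ht
  have e1 := B_cls (w := wt G) hr.eqv (β := 83 * cut G S / t) (by
    intro z
    rw [le_div_iff₀ ht]
    linarith [h z]) x
  rw [B_wt] at e1
  have e2 := mul_le_mul_of_nonneg_left e1 ht.le
  have e3 : t * (83 * cut G S / t * ((cls r x).card : ℝ)) = 83 * cut G S * (cls r x).card := by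
    field_simp
  linarith

/-- a proper class has at most half of the points -/
lemma two_mul_cls {r : V → V → Prop} (hr : InvRel Γ r) (htr : ∀ x y : V, ∃ g : Γ, g • x = y)
    (x : V) (h : (cls r x).card < Fintype.card V) :
    (cls r x).card ∣ Fintype.card V ∧ 2 * (cls r x).card ≤ Fintype.card V := by
  obtain ⟨K, hK⟩ := exists_stab hr htr x
  refine ⟨⟨K.index, by rw [← hK]; ring⟩, ?_⟩
  rcases Nat.lt_or_ge K.index 2 with h1 | h1
  · exfalso
    have h2 : K.index * (cls r x).card ≤ 1 * (cls r x).card := Nat.mul_le_mul_right _ (by omega)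
    omega
  · rw [← hK]
    exact Nat.mul_le_mul_right _ h1

end aux

/-- **The isoperimetric profile of vertex-transitive graphs.** -/
theorem result :
    -- small sets or blocks
    (∀ (V : Type) [Fintype V] [DecidableEq V] (G : SimpleGraph V) [DecidableRel G.Adj],
      IsTransitive G → ∀ (S : Finset V) (t : ℝ), S.Nonempty → 0 < t → t ≤ S.card →
      HasSmallSet G S t ∨
      ∃ P : Finpartition (univ : Finset V), IsBlockSystem G P ∧ ∀ A ∈ P.parts,
        t < A.card ∧ A.card < 2 * S.card ∧ (cut G A : ℝ) / A.card ≤ 83 * cut G S / t) ∧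
    -- prime order and primitive graphs
    (∀ (V : Type) [Fintype V] [DecidableEq V] (G : SimpleGraph V) [DecidableRel G.Adj],
      IsTransitive G → ((Fintype.card V).Prime ∨ ∀ P : Finpartition (univ : Finset V),
        IsBlockSystem G P → P.parts.card = 1 ∨ ∀ A ∈ P.parts, A.card = 1) →
      ∀ (S : Finset V) (t : ℝ), 2 * S.card ≤ Fintype.card V → 1 ≤ t → t ≤ S.card →
      HasSmallSet G S t) ∧
    -- connected graphs
    (∀ (V : Type) [Fintype V] [DecidableEq V] (G : SimpleGraph V) [DecidableRel G.Adj],
      IsTransitive G → G.Connected →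
      ∀ (S : Finset V) (t : ℝ), 2 * S.card ≤ Fintype.card V → 0 < t → 83 * cut G S < t →
      t ≤ S.card → HasSmallSet G S t) ∧
    -- groups without subgroups of small index
    (∀ (V : Type) [Fintype V] [DecidableEq V] (G : SimpleGraph V) [DecidableRel G.Adj]
      (Γ : Type) [Group Γ] [Finite Γ] [MulAction Γ V],
      (∀ (g : Γ) (x y : V), G.Adj (g • x) (g • y) ↔ G.Adj x y) →
      (∀ x y : V, ∃ g : Γ, g • x = y) →
      ∀ (S : Finset V) (t : ℝ), 2 * S.card ≤ Fintype.card V → 0 < t → t ≤ S.card →
      (∀ K : Subgroup Γ, K.index * t < Fintype.card V → K = ⊤) → HasSmallSet G S t) ∧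
    -- sets of all sizes
    (∀ (V : Type) [Fintype V] [DecidableEq V] (G : SimpleGraph V) [DecidableRel G.Adj] (d : ℕ),
      1 ≤ d → G.IsRegularOfDegree d → IsTransitive G →
      ∀ η δ : ℝ, 0 < η → η ≤ 1 → 0 < δ → δ ≤ 1 →
      ∀ S : Finset V, S.Nonempty → 2 * S.card ≤ Fintype.card V →
      expansion G d S * max ((S.card : ℝ) / Fintype.card V) δ
        ≤ η * δ / (1320 * Real.logb 2 (4 / η)) →
      SparseAtAllScales G d η δ ∨
      ∃ P : Finpartition (univ : Finset V), IsBlockSystem G P ∧
        2 ≤ P.parts.card ∧ P.parts.card * (η * δ) < 4 ∧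
        ∀ A ∈ P.parts, expansion G d A
          ≤ 332 * (expansion G d S * (S.card / Fintype.card V)) / (η * δ)) ∧
    -- sharpness
    (∀ η δ : ℝ, 0 < η → η ≤ 1 / 4 → 0 < δ → δ ≤ 1 / 4 → ∀ p : ℕ, p.Prime → 7 ≤ η * δ * p →
      ∃ (V : Type) (_ : Fintype V) (_ : DecidableEq V) (G : SimpleGraph V)
        (_ : DecidableRel G.Adj) (d : ℕ), Fintype.card V = p ∧ 1 ≤ d ∧ G.IsRegularOfDegree d ∧
        IsTransitive G ∧
        (∃ S : Finset V, S.Nonempty ∧ 2 * S.card ≤ Fintype.card V ∧
          expansion G d S ≤ 5 * (η * δ)) ∧
        ∀ T : Finset V, T.Nonempty → (T.card : ℝ) ≤ δ * Fintype.card V + 1 →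
          η < expansion G d T) ∧
    -- the condition for connected graphs is necessary
    (∀ d : ℕ, 1 ≤ d → ∃ (V : Type) (_ : Fintype V) (_ : DecidableEq V) (G : SimpleGraph V)
      (_ : DecidableRel G.Adj), Fintype.card V = 2 * d ∧ G.IsRegularOfDegree d ∧ G.Connected ∧
      IsTransitive G ∧ (∃ S : Finset V, S.card = d ∧ cut G S = d) ∧
      ∀ T : Finset V, T.Nonempty → (T.card : ℝ) ≤ d / 4 → 3 / 4 * d ≤ (cut G T : ℝ) / T.card) := by
  refine ⟨?_, ?_, ?_, ?_, ?_, ?_, ?_⟩
  · intro V _ _ G _ htrans S t hS ht htS
    classical
    let _ := autAction G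
    let _ : Fintype (G ≃g G) := Fintype.ofInjective (fun φ : G ≃g G => φ.toEquiv) (by
      intro φ ψ h
      exact RelIso.toEquiv_injective h)
    rcases graph_profile (Γ := G ≃g G) G (fun g x y => g.map_adj_iff) htrans S hS ht htS with
      ⟨T, h1, h2, h3⟩ | ⟨r, h1, h2, h3, h4⟩
    · exact Or.inl ⟨T, h1, h2, ratio_le G h1 ht h3⟩
    · right
      obtain ⟨P, hP1, hP2⟩ := exists_parts G h1.eqv h1.inv
      refine ⟨P, hP1, ?_⟩
      intro A hA
      obtain ⟨x, _, rfl⟩ := hP2 A hA
      exact ⟨h3 x, h2 x, cls_ratio G ht h1 h4 x⟩
  · intro V _ _ G _ htrans hprim S t hS2 ht1 htS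
    have ht : 0 < t := by linarith
    have hS : S.Nonempty := by
      rw [← card_pos]
      have : (1 : ℝ) ≤ S.card := ht1.trans htS
      have h2 : 1 ≤ S.card := by exact_mod_cast this
      omega
    classical
    let _ := autAction G
    let _ : Fintype (G ≃g G) := Fintype.ofInjective (fun φ : G ≃g G => φ.toEquiv) (by
      intro φ ψ h
      exact RelIso.toEquiv_injective h)
    rcases graph_profile (Γ := G ≃g G) G (fun g x y => g.map_adj_iff) htrans S hS ht htS with
      ⟨T, h1, h2, h3⟩ | ⟨r, h1, h2, h3, h4⟩
    · exact ⟨T, h1, h2, ratio_le G h1 ht h3⟩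
    · exfalso
      obtain ⟨x, hx⟩ := hS
      have e1 := two_mul_cls h1 htrans x (by have := h2 x; omega)
      have e2 : 1 < (cls r x).card := by
        have := h3 x
        have : (1 : ℝ) < (cls r x).card := by linarith
        exact_mod_cast this
      rcases hprim with hp | hp
      · rcases (Nat.dvd_prime hp).1 e1.1 with h | h
        · omega
        · omega
      · obtain ⟨P, hP1, hP2⟩ := exists_parts G h1.eqv h1.inv
        have hV : Nonempty V := ⟨x⟩
        have hge : 2 ≤ P.parts.card := by
          apply two_le_parts
          intro A hA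
          obtain ⟨y, _, rfl⟩ := hP2 A hA
          rw [h1.card_cls htrans y x]
          exact e1.2
        rcases hp P hP1 with h | h
        · omega
        · have hne : P.parts.Nonempty := card_pos.1 (by omega)
          obtain ⟨A, hA⟩ := hne
          obtain ⟨y, _, rfl⟩ := hP2 A hA
          have := h _ hA
          rw [h1.card_cls htrans y x] at this
          omega
  · intro V _ _ G _ htrans hconn S t hS2 ht hcut htS
    have hS : S.Nonempty := by
      rw [← card_pos]
      have : (0 : ℝ) < S.card := by linarith
      exact_mod_cast this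
    classical
    let _ := autAction G
    let _ : Fintype (G ≃g G) := Fintype.ofInjective (fun φ : G ≃g G => φ.toEquiv) (by
      intro φ ψ h
      exact RelIso.toEquiv_injective h)
    rcases graph_profile (Γ := G ≃g G) G (fun g x y => g.map_adj_iff) htrans S hS ht htS with
      ⟨T, h1, h2, h3⟩ | ⟨r, h1, h2, h3, h4⟩
    · exact ⟨T, h1, h2, ratio_le G h1 ht h3⟩
    · exfalso
      obtain ⟨x, hx⟩ := hS
      have e1 := one_le_wo (Γ := G ≃g G) G hconn (fun g x y => g.map_adj_iff) htrans h1 x (by
        intro h
        have := h2 x
        rw [h, card_univ] at this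
        omega)
      have e2 := h4 x
      have e3 : t * 1 ≤ t * wo (wt G) r x := mul_le_mul_of_nonneg_left e1 ht.le
      linarith
  · intro V _ _ G _ Γ _ _ _ hadj htr S t hS2 ht htS hK
    have hS : S.Nonempty := by
      rw [← card_pos]
      have : (0 : ℝ) < S.card := by linarith
      exact_mod_cast this
    classical
    have _ := Fintype.ofFinite Γ
    rcases graph_profile (Γ := Γ) G hadj htr S hS ht htS with
      ⟨T, h1, h2, h3⟩ | ⟨r, h1, h2, h3, h4⟩
    · exact ⟨T, h1, h2, ratio_le G h1 ht h3⟩
    · exfalso
      obtain ⟨x, hx⟩ := hS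
      obtain ⟨K, hK1⟩ := exists_stab h1 htr x
      have hn : 0 < Fintype.card V := Fintype.card_pos_iff.2 ⟨x⟩
      have e0 : (0 : ℝ) < K.index := by
        have : 0 < K.index := by
          rcases Nat.eq_zero_or_pos K.index with h | h
          · rw [h, zero_mul] at hK1
            omega
          · exact h
        exact_mod_cast this
      have e1 : (K.index : ℝ) * (cls r x).card = Fintype.card V := by exact_mod_cast hK1
      have e2 := hK K (by
        rw [← e1]
        exact mul_lt_mul_of_pos_left (h3 x) e0)
      rw [e2, Subgroup.index_top, one_mul] at hK1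
      have := h2 x
      omega
  · intro V _ _ G _ d hd1 hd htrans η δ hη hη1 hδ hδ1 S hS hS2 hB
    classical
    let _ := autAction G
    let _ : Fintype (G ≃g G) := Fintype.ofInjective (fun φ : G ≃g G => φ.toEquiv) (by
      intro φ ψ h
      exact RelIso.toEquiv_injective h)
    have : Nonempty V := ⟨hS.choose⟩
    rcases graph_all_scales (Γ := G ≃g G) G hd hd1 (fun g x y => g.map_adj_iff) htrans hη hη1 hδ S
      hS hB with h | ⟨r, h1, h2, h3, h4⟩
    · exact Or.inl h
    · right
      obtain ⟨P, hP1, hP2⟩ := exists_parts G h1.eqv h1.inv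
      refine ⟨P, hP1, ?_, ?_, ?_⟩
      · apply two_le_parts
        intro A hA
        obtain ⟨x, _, rfl⟩ := hP2 A hA
        exact (two_mul_cls h1 htrans x (by have := h2 x; omega)).2
      · have := parts_lt (P := P) (t := η * δ / 2) (by
          intro A hA
          obtain ⟨x, _, rfl⟩ := hP2 A hA
          linarith [h3 x])
        linarith
      · intro A hA
        obtain ⟨x, _, rfl⟩ := hP2 A hA
        exact expansion_cls G hd1 h1.eqv h4 x
  · intro η δ hη hη4 hδ hδ4 p _ hp
    exact sharp hη hη4 hδ hδ4 p hp
  · intro d hd
    have hd0 : (0 : ℝ) < d := by exact_mod_cast hd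
    have hcard : Fintype.card (Fin d × Bool) = 2 * d := by
      rw [Fintype.card_prod, Fintype.card_fin, Fintype.card_bool, mul_comm]
    have hhalf : (Finset.univ.filter fun x : Fin d × Bool => x.2 = true).card = d := by
      have : (Finset.univ.filter fun x : Fin d × Bool => x.2 = true)
          = Finset.univ.image fun a : Fin d => (a, true) := by
        ext ⟨a, s⟩
        simp only [Finset.mem_filter, Finset.mem_univ, true_and, Finset.mem_image,
          Prod.mk.injEq]
        constructor
        · intro h
          exact ⟨a, rfl, h.symm⟩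
        · rintro ⟨b, _, h⟩
          exact h.symm
      rw [this, Finset.card_image_of_injective, Finset.card_univ, Fintype.card_fin]
      intro a b h
      exact (Prod.mk.inj h).1
    refine ⟨Fin d × Bool, inferInstance, inferInstance, prism d, inferInstance, hcard,
      prism_regular d, prism_connected d hd, prism_transitive d, ?_, ?_⟩
    · exact ⟨Finset.univ.filter fun x : Fin d × Bool => x.2 = true, hhalf, prism_half d⟩
    · intro T hT hT4
      have hT0 : (0 : ℝ) < T.card := by exact_mod_cast hT.card_pos
      have h4 : 4 * T.card ≤ d := by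
        have : (4 : ℝ) * T.card ≤ d := by linarith
        exact_mod_cast this
      have h5 := prism_small d T h4
      have h6 : (3 : ℝ) * (d * T.card) ≤ 4 * cut (prism d) T := by exact_mod_cast h5
      rw [le_div_iff₀ hT0]
      linarith

end Pool.Agent.Results.MP_8d8c46_lc.IsoperimetricProfile
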