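import Pool.Agent.H1.SA.Final

/-!
# Small-set expansion and the Sherali-Adams hierarchy: a lower bound

The definitions used in the statement, `cutSize`, `IsSA`, `joint`, `cutValue` and `IsSolution`,
are in `Pool/Agent/H1/SA/Defs.lean`. `cutSize G S` is the number of edges of `G` leaving `S`.
`IsSolution G r k c P` says that `P` is a solution of level `r` of the Sherali-Adams relaxation
of the two conditions `|S| = k` and at most `c` edges of `G` leave `S`.

The graphs are random lifts of random bipartite graphs. The solution is given by labels which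
are read off from Gaussian variables with covariance `lam ^ distance`; the covariance is
approximately positive semidefinite on small sets, as sparse graphs without short cycles can be
peeled by removing vertices of degree at most one and long paths.
-/

set_option autoImplicit false

namespace Pool.Agent.Results.MP_8d8c46_lc.SheraliAdams

open Pool.Agent.H1.SA

/-- For `q ≥ 2` and `0 < ε ≤ 1` there is a degree `d ≤ (q / ε) ^ 60` such that for all large `N`
there is a `d`-regular graph `G` on `n = 2 N q` vertices in which every set of `n / q` vertices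
has expansion at least `1 - 1 / q - ε`, while the Sherali-Adams relaxation of level
`n ^ ((ε / q) ^ 60)` of the existence of a set of `n / q` vertices of expansion at most `ε` is
feasible. -/
theorem result {q : ℕ} {ε : ℝ} (hq : 2 ≤ q) (hε : 0 < ε) (hε1 : ε ≤ 1) :
    ∃ d : ℕ, 1 ≤ d ∧ (d : ℝ) ≤ (q / ε) ^ 60 ∧ ∃ N0 : ℕ, ∀ N ≥ N0,
      ∃ G : SimpleGraph (Fin ((N + N) * q)), (∀ x, (G.neighborSet x).ncard = d) ∧
        (∀ S : Finset (Fin ((N + N) * q)), S.card = N + N →
          (1 - 1 / (q : ℝ) - ε) * ((d * S.card : ℕ) : ℝ) ≤ cutSize G S) ∧
        ∃ (r : ℕ) (P : Finset (Fin ((N + N) * q)) → Finset (Fin ((N + N) * q)) → ℝ),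
          (((N + N) * q : ℕ) : ℝ) ^ ((ε / q) ^ 60 : ℝ) ≤ r ∧
          IsSolution G r (N + N) (ε * ((d * (N + N) : ℕ) : ℝ)) P :=
  main_sa hq hε hε1

end Pool.Agent.Results.MP_8d8c46_lc.SheraliAdams
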