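import Pool.Graph.R_pool_sql_team_seeded_64922ed1.X246.ACR.Sse
import Pool.Agent.H1.TC.Gen

set_option autoImplicit false

/-!
# Reductions to small-set expansion by threshold networks with few wires

A reduction maps an input `x` with `N` bits to a regular graph `G x` with the vertex set `V`, given by
lists of neighbours. Here every entry of the lists may be read off, by an arbitrary decoding, from `s`
units of a network of threshold units with arbitrary real weights and feedback, with `W` wires, after
`t + 1` rounds. If such a reduction is right for parity on slightly more than half of the inputs, then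
`W` is at least `N ^ (1 + 1 / (2 · 3 ^ t - 1))` up to logarithmic factors. Threshold circuits of
depth `t + 1` with `W` wires for each entry are a special case.
-/

namespace Pool.Agent.Results.MP_8d8c46_lc.ThresholdNetworks

open Finset Pool.Agent.X246.ACR Pool.Agent.H1.TC Pool.Agent.Y601

open scoped Classical BigOperators

/-- A network of threshold units which reads `N` bits: `w` are the weights of the bits, `v` the
weights between the units, `θ` the thresholds. -/
structure Net (N : ℕ) where
  /-- the number of the units -/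
  units : ℕ
  /-- the weights of the bits -/
  w : Fin units → Fin N → ℝ
  /-- the weights between the units -/
  v : Fin units → Fin units → ℝ
  /-- the thresholds -/
  θ : Fin units → ℝ

namespace Net

variable {N : ℕ}

/-- The units which are on after `t` rounds; at the start none is on. -/
noncomputable def state (C : Net N) (x : Fin N → Bool) : ℕ → Fin C.units → Bool
  | 0, _ => false
  | t + 1, g => decide (C.θ g ≤ (∑ i, if x i then C.w g i else 0) +
      ∑ h, if C.state x t h then C.v g h else 0)

/-- The number of wires: the nonzero weights. -/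
noncomputable def wires (C : Net N) : ℕ :=
  ∑ g, (({i | C.w g i ≠ 0} : Set (Fin N)).ncard + ({h | C.v g h ≠ 0} : Set (Fin C.units)).ncard)

end Net

/-- The number of ones of `x` is odd. -/
def IsOdd {N : ℕ} (x : Fin N → Bool) : Prop := Odd (univ.filter fun i => x i = true).card

variable {N : ℕ}

/-- The network in the general format. -/
noncomputable def toNt (C : Net N) : Nt (Fin N) (Fin C.units) Bool where
  φ g i b := if b then C.w g i else 0
  w := C.v
  θ := C.θ
  I g := univ.filter fun i => C.w g i ≠ 0
  J g := univ.filter fun h => C.v g h ≠ 0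
  hI g i hi x y := by
    rw [Finset.mem_filter, not_and, not_not] at hi
    rw [hi (Finset.mem_univ _)]
    simp
  hJ g h hh := by
    rw [Finset.mem_filter, not_and, not_not] at hh
    exact hh (Finset.mem_univ _)

theorem toNt_W (C : Net N) : (toNt C).W = C.wires := by
  unfold Nt.W Net.wires
  push_cast
  refine Finset.sum_congr rfl fun g _ => ?_
  have h1 : ((toNt C).I g).card = ({i | C.w g i ≠ 0} : Set (Fin N)).ncard := by
    rw [Set.ncard_eq_toFinset_card']
    congr 1
    ext h
    simp [toNt]
  have h2 : ((toNt C).J g).card = ({h | C.v g h ≠ 0} : Set (Fin C.units)).ncard := by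
    rw [Set.ncard_eq_toFinset_card']
    congr 1
    ext h
    simp [toNt]
  rw [h1, h2]

theorem toNt_run (C : Net N) (x : Fin N → Bool) (t : ℕ) (g : Fin C.units) :
    (toNt C).run x t (fun _ => 0) g = ind (C.state x t g = true) := by
  induction t generalizing g with
  | zero =>
    rw [Nt.run_zero]
    exact (ind_neg (by simp [Net.state])).symm
  | succ t ih =>
    rw [Nt.run_succ']
    unfold Nt.step
    refine ind_congr ?_
    rw [Net.state, decide_eq_true_iff]
    have e1 : ∑ h, (toNt C).w g h * (toNt C).run x t (fun _ => 0) h =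
        ∑ h, if C.state x t h then C.v g h else 0 := by
      refine Finset.sum_congr rfl fun h _ => ?_
      rw [ih h]
      by_cases hs : C.state x t h = true
      · rw [ind_pos hs, if_pos hs, mul_one]
        rfl
      · rw [ind_neg hs, if_neg hs, mul_zero]
    unfold Nt.arg
    rw [e1]
    have e2 : ∑ i, (toNt C).φ g i (x i) = ∑ i, if x i then C.w g i else 0 := rfl
    have e3 : (toNt C).θ g = C.θ g := rfl
    rw [e2, e3]
    constructor
    · intro h
      linarith
    · intro h
      linarith

theorem piv (C : Net N) (t : ℕ) (g : Fin C.units) (x x' : Fin N → Bool)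
    (h : C.state x' (t + 1) g ≠ C.state x (t + 1) g) :
    (toNt C).Piv t (fun _ _ => 0) g x x' := by
  have h1 := toNt_run C x (t + 1) g
  have h2 := toNt_run C x' (t + 1) g
  rw [Nt.run_succ'] at h1 h2
  unfold Nt.step at h1 h2
  unfold Nt.Piv
  obtain ⟨a, ha⟩ : ∃ a, a = (toNt C).arg ((toNt C).run x t fun _ => 0) x g := ⟨_, rfl⟩
  obtain ⟨b, hb⟩ : ∃ b, b = (toNt C).arg ((toNt C).run x' t fun _ => 0) x' g := ⟨_, rfl⟩
  rw [← ha] at h1 ⊢
  rw [← hb] at h2 ⊢
  have h3 : ¬ (0 ≤ a ↔ 0 ≤ b) := by
    intro h4
    rw [ind_congr h4] at h1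
    rw [h1] at h2
    apply h
    by_cases p : C.state x' (t + 1) g = true
    · by_cases q : C.state x (t + 1) g = true
      · rw [p, q]
      · rw [ind_pos p, ind_neg q] at h2
        norm_num at h2
    · by_cases q : C.state x (t + 1) g = true
      · rw [ind_neg p, ind_pos q] at h2
        norm_num at h2
      · rw [Bool.not_eq_true] at p q
        rw [p, q]
  have h4 : (0 ≤ a ∧ b < 0) ∨ (a < 0 ∧ 0 ≤ b) := by
    by_contra hcon
    push Not at hcon
    apply h3
    constructor
    · intro h5
      exact hcon.1 h5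
    · intro h5
      by_contra h6
      push Not at h6
      exact absurd h5 (not_le.mpr (hcon.2 h6))
  constructor
  · rintro rfl
    rcases h4 with h | h <;> linarith
  · rcases h4 with ⟨p, q⟩ | ⟨p, q⟩
    · rw [abs_of_nonneg p, abs_of_neg (by linarith)]
      linarith
    · rw [abs_of_neg p, abs_of_nonneg (by linarith)]
      linarith

/-- The bound for the outputs. -/
theorem entry (hN : 1 ≤ N) (C : Net N) (t s W : ℕ) (hs : 1 ≤ s) (hsW : s ≤ W) (hW : C.wires ≤ W)
    (H : Finset (Fin C.units)) (hH : H.card ≤ s) :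
    ∑ x : Fin N → Bool, ((univ.filter fun i => ∃ g ∈ H,
      C.state (fl i x) (t + 1) g ≠ C.state x (t + 1) g).card : ℝ) ≤
      (2 ^ (t + 1) * (301 + 600 * Real.log (2 * (N * W))) *
        ((s : ℝ) ^ (1 / (2 * 3 ^ t) : ℝ) * (W : ℝ) ^ (1 - 1 / (2 * 3 ^ t) : ℝ))) * 2 ^ N := by
  have hsR : (1 : ℝ) ≤ s := by exact_mod_cast hs
  have hsWR : (s : ℝ) ≤ W := by exact_mod_cast hsW
  have hW1 : (1 : ℝ) ≤ W := hsR.trans hsWR
  have hNR : (1 : ℝ) ≤ N := by exact_mod_cast hN
  obtain ⟨e, he⟩ : ∃ e : ℝ, e = 1 / (2 * 3 ^ t) := ⟨_, rfl⟩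
  have he0 : 0 < e := by rw [he]; positivity
  obtain ⟨y, hy⟩ : ∃ y : ℝ, y = ((s : ℝ) / W) ^ e := ⟨_, rfl⟩
  have hy0 : 0 < y := by rw [hy]; positivity
  have hy1 : y ≤ 1 := by
    rw [hy]
    exact Real.rpow_le_one (by positivity) ((div_le_one (by linarith)).mpr hsWR) he0.le
  have hyp : (y ^ 3 ^ t) ^ 2 = (s : ℝ) / W := by
    rw [← pow_mul, hy, ← Real.rpow_natCast, ← Real.rpow_mul (by positivity), he]
    push_cast
    rw [show (1 / (2 * 3 ^ t) * (3 ^ t * 2) : ℝ) = 1 by field_simp, Real.rpow_one]
  have hM : 1 ≤ ((N : ℝ) * W) * y ^ 3 ^ t := by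
    have h1 : 0 < y ^ 3 ^ t := by positivity
    have h2 : 1 ≤ (((N : ℝ) * W) * y ^ 3 ^ t) ^ 2 := by
      rw [mul_pow, hyp]
      have h3 : ((N : ℝ) * W) ^ 2 * (s / W) = N ^ 2 * W * s := by
        field_simp
      rw [h3]
      have h4 : 1 ≤ (N : ℝ) ^ 2 := one_le_pow₀ hNR
      have h5 : 1 ≤ (N : ℝ) ^ 2 * W := one_le_mul_of_one_le_of_one_le h4 hW1
      exact one_le_mul_of_one_le_of_one_le h5 hsR
    by_contra hcon
    push Not at hcon
    have h6 : (((N : ℝ) * W) * y ^ 3 ^ t) ^ 2 < 1 := by
      have h7 : 0 ≤ ((N : ℝ) * W) * y ^ 3 ^ t := by positivity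
      nlinarith
    linarith
  have hZ := Z_bound (ι := Fin N) (G := Fin C.units) (M := (N : ℝ) * W) (y := y)
    (by rw [Fintype.card_fin]; nlinarith) (by rw [Fintype.card_fin]; exact hN) hy0 hy1 t hM H
    (W := (W : ℝ)) (by linarith) (by
      rw [hyp, div_mul_cancel₀ _ (by linarith : (W : ℝ) ≠ 0)]
      exact_mod_cast hH) t le_rfl (toNt C) (by
        rw [toNt_W]
        exact_mod_cast hW) univ (fun _ => false) (fun _ _ => 0)
      (fun g => ⟨∅, by simp, fun _ _ _ => rfl⟩)
  rw [Nat.sub_self, pow_zero, pow_one] at hZ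
  have e1 : y * W = (s : ℝ) ^ e * (W : ℝ) ^ (1 - e) := by
    rw [hy, Real.div_rpow (by linarith) (by linarith), Real.rpow_sub (by linarith), Real.rpow_one]
    ring
  rw [e1] at hZ
  have hZ2 : Z (toNt C) t (fun _ _ => 0) H univ (fun _ => false) =
      (∑ x : Fin N → Bool, ∑ i, ind (∃ g ∈ H, (toNt C).Piv t (fun _ _ => 0) g x (fl i x))) /
        2 ^ N := by
    unfold Z
    rw [Fintype.expect_eq_sum_div_card]
    congr 1
    · refine Finset.sum_congr rfl fun x _ => Finset.sum_congr rfl fun i _ => ?_
      have : mg univ x (fun _ => false) = x := by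
        funext j
        exact mg_mem (Finset.mem_univ j)
      rw [this]
    · simp
  rw [hZ2, div_le_iff₀ (by positivity)] at hZ
  refine le_trans ?_ (hZ.trans ?_)
  · refine Finset.sum_le_sum fun x _ => ?_
    rw [Finset.card_filter]
    push_cast
    refine Finset.sum_le_sum fun i _ => ?_
    split_ifs with h
    · obtain ⟨g, hg, h2⟩ := h
      rw [ind_pos ⟨g, hg, piv C t g x (fl i x) h2⟩]
    · exact ind_nonneg _
  · rw [← he]
    refine mul_le_mul_of_nonneg_right ?_ (by positivity)
    have hc : cst ((N : ℝ) * W) = 301 + 600 * Real.log (2 * (N * W)) := rfl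
    rw [← hc]
    have hcp := cst_ge (M := (N : ℝ) * W) (one_le_mul_of_one_le_of_one_le hNR hW1)
    refine mul_le_mul_of_nonneg_right ?_ (by positivity)
    refine mul_le_mul_of_nonneg_right ?_ (by linarith)
    linarith

theorem flip_eq (i : Fin N) (x : Fin N → Bool) : SSE.flip i x = fl i x := by
  funext j
  by_cases h : j = i
  · subst h
    simp [SSE.flip, fl]
  · simp [SSE.flip, fl, h]

theorem circuit (C : Net N) (lev : Fin C.units → ℕ)
    (hw : ∀ g h, C.v g h ≠ 0 → lev h < lev g) (x : Fin N → Bool) (b : Fin C.units → Bool)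
    (hb : ∀ g, b g = decide (C.θ g ≤ (∑ i, if x i then C.w g i else 0) +
      ∑ h, if b h then C.v g h else 0)) (t : ℕ) : ∀ g, lev g < t → C.state x t g = b g := by
  induction t with
  | zero => intro g hg; omega
  | succ t ih =>
    intro g hg
    have e : ∑ h, (if C.state x t h then C.v g h else 0) = ∑ h, if b h then C.v g h else 0 := by
      refine Finset.sum_congr rfl fun h _ => ?_
      by_cases hgh : C.v g h = 0
      · rw [hgh]; simp
      · rw [ih h (by have := hw g h hgh; omega)]
    rw [Net.state, hb g, e]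

/-- **Theorem.** (1) Suppose that every entry of the lists of neighbours is decoded from the states of
`s` units, after `t + 1` rounds, of a network of threshold units with at most `W` wires, `s ≤ W`, and
that for at least a fraction `1 / 2 + γ` of the inputs `x` the lists are those of a `d`-regular graph,
`d ≥ max(1, κ D)`, in which some set of `k` vertices has expansion at most `ε` (if `x` is even) or all
sets of `k` vertices have expansion at least `1 - η` (if `x` is odd). Then
`(1 - ε - η) κ γ (k / |V|) N ≤ 2 ^ (t + 1) (301 + 600 log (2 N W)) s ^ e W ^ (1 - e)` where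
`e = 1 / (2 · 3 ^ t)`.

(2) If a network has no feedback, so that it is a threshold circuit of depth at most `D`, then the
states after `D` rounds are the values of the gates. -/
theorem result :
    (∀ (N D k s t W : ℕ) (V : Type) [Fintype V] (ε η κ γ : ℝ) (G : (Fin N → Bool) → SimpleGraph V)
      (C : V → Fin D → Net N) (out : (u : V) → (j : Fin D) → Fin s → Fin (C u j).units)
      (dec : V → Fin D → (Fin s → Bool) → Option V),
      1 ≤ N → 1 ≤ s → s ≤ W → (∀ u j, (C u j).wires ≤ W) →
      0 ≤ ε → 0 ≤ η → ε + η < 1 → 0 ≤ κ → 0 < γ → 1 ≤ k → k ≤ Fintype.card V →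
      (1 / 2 + γ) * 2 ^ N ≤ ((univ.filter fun x : Fin N → Bool =>
        SseRight ε η κ k (IsOdd x) (G x) (fun u j => dec u j fun i =>
          (C u j).state x (t + 1) (out u j i))).card : ℝ) →
      (1 - ε - η) * κ * γ * (k / Fintype.card V) * N ≤
        2 ^ (t + 1) * (301 + 600 * Real.log (2 * (N * W))) *
        ((s : ℝ) ^ (1 / (2 * 3 ^ t) : ℝ) * (W : ℝ) ^ (1 - 1 / (2 * 3 ^ t) : ℝ))) ∧
    ∀ (N : ℕ) (C : Net N) (lev : Fin C.units → ℕ) (D : ℕ), (∀ g, lev g < D) →
      (∀ g h, C.v g h ≠ 0 → lev h < lev g) → ∀ (x : Fin N → Bool) (b : Fin C.units → Bool),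
      (∀ g, b g = decide (C.θ g ≤ (∑ i, if x i then C.w g i else 0) +
        ∑ h, if b h then C.v g h else 0)) → C.state x D = b := by
  refine ⟨?_, fun N C lev D hlev hw x b hb => funext fun g => circuit C lev hw x b hb D g (hlev g)⟩
  intro N D k s t W V _ ε η κ γ G C out dec hN hs hsW hCW hε hη hεη hκ hγ hk hkV hA
  have hV : 0 < Fintype.card V := by omega
  obtain ⟨A, hAdef⟩ : ∃ A : ℝ, A = 2 ^ (t + 1) * (301 + 600 * Real.log (2 * (N * W))) *
        ((s : ℝ) ^ (1 / (2 * 3 ^ t) : ℝ) * (W : ℝ) ^ (1 - 1 / (2 * 3 ^ t) : ℝ)) := ⟨_, rfl⟩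
  rw [← hAdef]
  have h1 := pairs_main (R := V × Fin D) (fun x r => dec r.1 r.2 fun i =>
      (C r.1 r.2).state x (t + 1) (out r.1 r.2 i))
    (fun x => SseRight ε η κ k (IsOdd x) (G x)
        (fun u j => dec u j fun i => (C u j).state x (t + 1) (out u j i)))
    ((1 - ε - η) * κ * k * D / 2) A γ
    (by
      have : 0 ≤ 1 - ε - η := by linarith
      positivity)
    (fun x i hx hy => by
      have h2 := sse_pair hε hη hεη hkV (SSE.odd_flip i x) hx hy
      convert h2) hA
    (fun r => by
      have h3 := entry hN (C r.1 r.2) t s W hs hsW (hCW _ _)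
        (univ.image (out r.1 r.2)) (Finset.card_image_le.trans (by
          rw [Finset.card_univ, Fintype.card_fin]))
      rw [hAdef]
      refine le_trans (Finset.sum_le_sum fun x _ => ?_) h3
      have h4 : (univ.filter fun i => dec r.1 r.2 (fun i_1 =>
          (C r.1 r.2).state (SSE.flip i x) (t + 1) (out r.1 r.2 i_1)) ≠
          dec r.1 r.2 fun i => (C r.1 r.2).state x (t + 1) (out r.1 r.2 i)) ⊆
          univ.filter fun i => ∃ g ∈ univ.image (out r.1 r.2),
            (C r.1 r.2).state (fl i x) (t + 1) g ≠ (C r.1 r.2).state x (t + 1) g := by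
        intro i hi
        rw [Finset.mem_filter] at hi ⊢
        refine ⟨Finset.mem_univ _, ?_⟩
        by_contra hcon
        push Not at hcon
        apply hi.2
        congr 1
        funext j
        rw [flip_eq]
        exact hcon _ (Finset.mem_image_of_mem _ (Finset.mem_univ j))
      exact_mod_cast Finset.card_le_card h4)
  have hex : ∃ x : Fin N → Bool, SseRight ε η κ k (IsOdd x) (G x)
      (fun u j => dec u j fun i => (C u j).state x (t + 1) (out u j i)) := by
    by_contra hcon
    push Not at hcon
    rw [filter_false_of_mem fun x _ => hcon x, card_empty, Nat.cast_zero] at hA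
    have : (0 : ℝ) < (1 / 2 + γ) * 2 ^ N := by positivity
    linarith
  obtain ⟨x, hx⟩ := hex
  have hD : (0 : ℝ) < D := by exact_mod_cast hx.pos hV
  have hV' : (0 : ℝ) < Fintype.card V := by exact_mod_cast hV
  rw [Fintype.card_prod, Fintype.card_fin] at h1
  push_cast at h1
  have h2 : ((1 - ε - η) * κ * γ * (k / Fintype.card V) * N) * (Fintype.card V * D) ≤
      A * (Fintype.card V * D) := by
    have h3 : ((1 - ε - η) * κ * γ * (k / Fintype.card V) * N) * (Fintype.card V * D) =
        2 * γ * N * ((1 - ε - η) * κ * k * D / 2) := by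
      field_simp
    rw [h3]
    linarith
  exact le_of_mul_le_mul_right h2 (by positivity)

end Pool.Agent.Results.MP_8d8c46_lc.ThresholdNetworks
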