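import Pool.Agent.H32.VT.Poly

/-!
# Vertex-transitive small-set expanders are unions of few expanders, with polynomial bounds

`cut G S` is the number of edges with exactly one endpoint in `S`, `innerCut G A T` the number of
edges between `T` and `A \ T` for `T ⊆ A`. Graphs are finite, `d`-regular and vertex-transitive, and
nothing is assumed about `d`.

* **Decomposition.** For all `a₀ > 0` and `μ` there are a system of `m` blocks, preserved by
  all automorphisms, and a number `a` between `a₀` and `a₀ m ^ (μ + 14)` such that the expansion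
  inside of the blocks is at least `a` and the expansion of the blocks is at most `a / 2 ^ μ`.
* **Small-set expanders.** If for one size `k` between `δ n` and `n` all sets of `k` vertices have
  expansion more than `η`, then there is such a system with less than `2 / (η δ)` blocks
  and `a ≥ (η / 4) (η δ / 2) ^ (μ + 14)`.
* Conversely, if the expansion inside of the blocks of a partition is at least `a` then all sets
  of at most half of the size of the smallest block have expansion at least `a`.

Proof. The main tool is the dichotomy of `Pool/Agent/H32/VT/Profile.lean`: for every nonempty `S` and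
`t ≤ |S|` there is a nonempty set `T` of at most `t` vertices with `cut T / |T| ≤ 330 cut S / t`, or
there are blocks `A` with `t < |A| < 2 |S|` and `cut A / |A| ≤ 83 cut S / t`. We apply this to a sparse
cut `S` inside of a block of size `K` with `t = |S| / 8`, then to the set `T`, and so on. The expansion
grows at most by the factor `2640 < 8 ^ 4` in each step, and so the block case gives a finer
system of blocks of size `K'`, whose expansion is at most `664 (K / K') ^ 4` times the expansion of
`S`. The loss of the next refinements is bounded in the same way; their product telescopes, and the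
number of refinements is at most `log₂ m`.
-/

set_option autoImplicit false

namespace Pool.Agent.Results.MP_8d8c46_lc.UnionsOfExpanders

open Pool.Agent.H32.VT Finset

/-- the expansion of a set of vertices in a `d`-regular graph -/
noncomputable def expansion {V : Type} [Fintype V] [DecidableEq V] (G : SimpleGraph V)
    [DecidableRel G.Adj] (d : ℕ) (S : Finset V) : ℝ :=
  (cut G S : ℝ) / (d * S.card)

/-- a system of blocks: a partition of the vertices which is preserved by all automorphisms -/
def IsBlockSystem {V : Type} [Fintype V] [DecidableEq V] (G : SimpleGraph V)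
    (P : Finpartition (univ : Finset V)) : Prop :=
  ∀ φ : G ≃g G, ∀ A ∈ P.parts, A.image φ ∈ P.parts

/-- the sets of at most half of a part have expansion at least `a` in this part -/
def InnerExpansion {V : Type} [Fintype V] [DecidableEq V] (G : SimpleGraph V) [DecidableRel G.Adj]
    (d : ℕ) (P : Finpartition (univ : Finset V)) (a : ℝ) : Prop :=
  ∀ A ∈ P.parts, ∀ T ⊆ A, 2 * T.card ≤ A.card → a * (d * T.card) ≤ innerCut G A T

section aux
variable {V : Type} [Fintype V] [DecidableEq V] (G : SimpleGraph V) [DecidableRel G.Adj]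

lemma card_parts_mul {P : Finpartition (univ : Finset V)} {k : ℕ}
    (h : ∀ A ∈ P.parts, A.card = k) : P.parts.card * k = Fintype.card V := by
  have := P.sum_card_parts
  rw [Finset.sum_congr rfl h, Finset.sum_const, smul_eq_mul, card_univ] at this
  exact this

lemma cut_ge (P : Finpartition (univ : Finset V)) (T : Finset V) :
    ∑ A ∈ P.parts, innerCut G A (T ∩ A) ≤ cut G T := by
  unfold innerCut cut
  rw [← card_biUnion]
  · apply card_le_card
    intro q hq
    rw [mem_biUnion] at hq
    obtain ⟨A, _, hq⟩ := hq
    rw [mem_filter] at hq ⊢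
    obtain ⟨_, h1, h2, h3, h4⟩ := hq
    rw [mem_inter] at h1 h3
    exact ⟨mem_univ _, h1.1, fun h => h3 ⟨h, h2⟩, h4⟩
  · intro A hA A' hA' hne
    show Disjoint _ _
    rw [Finset.disjoint_left]
    intro q hq hq'
    rw [mem_filter] at hq hq'
    have h1 := (mem_inter.1 hq.2.1).2
    have h2 := (mem_inter.1 hq'.2.1).2
    exact Finset.disjoint_left.1 (P.disjoint hA hA' hne) h1 h2

lemma card_inter_parts (P : Finpartition (univ : Finset V)) (T : Finset V) :
    ∑ A ∈ P.parts, (T ∩ A).card = T.card := by
  rw [← card_biUnion]
  · congr 1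
    ext x
    rw [mem_biUnion]
    constructor
    · rintro ⟨A, _, h⟩
      exact (mem_inter.1 h).1
    · intro h
      obtain ⟨A, hA, hx⟩ := P.exists_mem (mem_univ x)
      exact ⟨A, hA, mem_inter.2 ⟨h, hx⟩⟩
  · intro A hA A' hA' hne
    show Disjoint _ _
    rw [Finset.disjoint_left]
    intro x hx hx'
    exact Finset.disjoint_left.1 (P.disjoint hA hA' hne) (mem_inter.1 hx).2 (mem_inter.1 hx').2

end aux

/-- **Vertex-transitive graphs are unions of expanders.** -/
theorem result :
    -- decomposition
    (∀ (V : Type) [Fintype V] [DecidableEq V] [Nonempty V] (G : SimpleGraph V)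
      [DecidableRel G.Adj] (d : ℕ), 1 ≤ d → (∀ u v : V, ∃ φ : G ≃g G, φ u = v) →
      ∀ (μ : ℕ) (a₀ : ℝ), 0 < a₀ → ∃ (P : Finpartition (univ : Finset V)) (a : ℝ),
        IsBlockSystem G P ∧ a₀ ≤ a ∧ a ≤ a₀ * (P.parts.card : ℝ) ^ (μ + 14) ∧
        (∀ A ∈ P.parts, expansion G d A ≤ a / 2 ^ μ) ∧ InnerExpansion G d P a) ∧
    -- small-set expanders
    (∀ (V : Type) [Fintype V] [DecidableEq V] (G : SimpleGraph V) [DecidableRel G.Adj] (d : ℕ),
      1 ≤ d → G.IsRegularOfDegree d → (∀ u v : V, ∃ φ : G ≃g G, φ u = v) →
      ∀ (μ : ℕ) (η δ : ℝ), 0 < η → η ≤ 1 → 0 < δ → δ ≤ 1 →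
      (∃ k : ℕ, δ * Fintype.card V ≤ k ∧ k ≤ Fintype.card V ∧
        ∀ T : Finset V, T.card = k → η < expansion G d T) →
      ∃ (P : Finpartition (univ : Finset V)) (a : ℝ), IsBlockSystem G P ∧
        P.parts.card * (η * δ) < 2 ∧ η / 4 * (η * δ / 2) ^ (μ + 14) ≤ a ∧
        (∀ A ∈ P.parts, expansion G d A ≤ a / 2 ^ μ) ∧ InnerExpansion G d P a) ∧
    -- the converse
    (∀ (V : Type) [Fintype V] [DecidableEq V] (G : SimpleGraph V) [DecidableRel G.Adj] (d : ℕ),
      1 ≤ d → ∀ (P : Finpartition (univ : Finset V)) (a : ℝ), InnerExpansion G d P a →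
      ∀ T : Finset V, T.Nonempty → (∀ A ∈ P.parts, 2 * T.card ≤ A.card) →
        a ≤ expansion G d T) := by
  refine ⟨?_, ?_, ?_⟩
  · intro V _ _ _ G _ d hd1 htrans μ a₀ ha
    classical
    let _ := autAction G
    let _ : Fintype (G ≃g G) := Fintype.ofInjective (fun φ : G ≃g G => φ.toEquiv) (by
      intro φ ψ h
      exact RelIso.toEquiv_injective h)
    have hn : (0 : ℝ) < Fintype.card V := by
      have : 0 < Fintype.card V := Fintype.card_pos
      exact_mod_cast this
    obtain ⟨r, a, h1, h2, h3, _, h5, h6⟩ := graph_decomposition (Γ := G ≃g G) G hd1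
      (fun g x y => g.map_adj_iff) htrans μ ha le_rfl hn (by
        intro T hT h
        exfalso
        have : (0 : ℝ) < T.card := by exact_mod_cast hT.card_pos
        linarith)
    obtain ⟨P, hP1, hP2⟩ := exists_parts G h1.eqv h1.inv
    obtain ⟨x⟩ := (inferInstance : Nonempty V)
    have hparts : P.parts.card * (cls r x).card = Fintype.card V := by
      apply card_parts_mul
      intro A hA
      obtain ⟨y, _, rfl⟩ := hP2 A hA
      exact h1.card_cls htrans y x
    have hc : (0 : ℝ) < (cls r x).card := by
      have : 0 < (cls r x).card := card_pos.2 ⟨x, (mem_cls r x x).2 (h1.eqv.refl x)⟩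
      exact_mod_cast this
    refine ⟨P, a, hP1, h2, ?_, ?_, ?_⟩
    · have e1 := h3 x
      rw [← hparts] at e1
      push_cast at e1
      rw [mul_pow, ← mul_assoc] at e1
      exact le_of_mul_le_mul_right e1 (by positivity)
    · intro A hA
      obtain ⟨y, _, rfl⟩ := hP2 A hA
      exact expansion_cls G hd1 h1.eqv h5 y
    · intro A hA T hT hT2
      obtain ⟨y, _, rfl⟩ := hP2 A hA
      rcases T.eq_empty_or_nonempty with h0 | h0
      · rw [h0]
        simp
      · have := h6 y T hT h0 hT2
        rw [B_wi G h1.eqv y T hT] at this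
        linarith
  · intro V _ _ G _ d hd1 hd htrans μ η δ hη hη1 hδ hδ1 hk
    obtain ⟨k, hk1, hk2, hk3⟩ := hk
    classical
    let _ := autAction G
    let _ : Fintype (G ≃g G) := Fintype.ofInjective (fun φ : G ≃g G => φ.toEquiv) (by
      intro φ ψ h
      exact RelIso.toEquiv_injective h)
    have hV : Nonempty V := by
      by_contra h
      rw [not_nonempty_iff] at h
      have h0 : Fintype.card V = 0 := Fintype.card_eq_zero
      have h1 := hk3 ∅ (by rw [card_empty]; omega)
      unfold expansion at h1
      simp at h1
      linarith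
    have hn : (0 : ℝ) < Fintype.card V := by
      have : 0 < Fintype.card V := Fintype.card_pos
      exact_mod_cast this
    have hd0 : (0 : ℝ) < d := by
      have : 0 < d := hd1
      exact_mod_cast this
    have hηδ : 0 < η * δ := mul_pos hη hδ
    have hηδ1 : η * δ ≤ 1 := by nlinarith
    obtain ⟨r, a, h1, h2, _, h4, h5, h6⟩ := graph_decomposition (Γ := G ≃g G) G hd1
      (fun g x y => g.map_adj_iff) htrans μ (a₀ := η / 4 * (η * δ / 2) ^ (μ + 14))
      (s := η * δ / 2 * Fintype.card V) (by positivity) (by positivity) (by nlinarith) (by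
        intro T hT hTs
        have hT0 : (0 : ℝ) < T.card := by exact_mod_cast hT.card_pos
        have e1 : η * d / 2 * T.card < B (wt G) T := by
          by_contra h3
          push Not at h3
          obtain ⟨T', h4, h5⟩ := small_all G hd hd1 (fun g x y => g.map_adj_iff) htrans hη T hT hTs
            h3 k hk1 hk2
          exact absurd (hk3 T' h4) (not_lt.2 h5)
        have e2 : (0 : ℝ) < (η * δ / 2 * Fintype.card V) ^ (μ + 14) := by positivity
        have e3 := mul_lt_mul_of_pos_right e1 e2
        refine lt_of_le_of_lt (le_of_eq ?_) e3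
        rw [mul_pow (η * δ / 2) (Fintype.card V : ℝ)]
        ring)
    obtain ⟨P, hP1, hP2⟩ := exists_parts G h1.eqv h1.inv
    refine ⟨P, a, hP1, ?_, h2, ?_, ?_⟩
    · apply parts_lt
      intro A hA
      obtain ⟨x, _, rfl⟩ := hP2 A hA
      linarith [h4 x]
    · intro A hA
      obtain ⟨y, _, rfl⟩ := hP2 A hA
      exact expansion_cls G hd1 h1.eqv h5 y
    · intro A hA T hT hT2
      obtain ⟨y, _, rfl⟩ := hP2 A hA
      rcases T.eq_empty_or_nonempty with h0 | h0
      · rw [h0]
        simp
      · have := h6 y T hT h0 hT2
        rw [B_wi G h1.eqv y T hT] at this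
        linarith
  · intro V _ _ G _ d hd1 P a hP T hT hTA
    have hd0 : (0 : ℝ) < d := by
      have : 0 < d := hd1
      exact_mod_cast this
    have hT0 : (0 : ℝ) < T.card := by exact_mod_cast hT.card_pos
    unfold expansion
    rw [le_div_iff₀ (by positivity)]
    have h1 : ∑ A ∈ P.parts, a * (d * ((T ∩ A).card : ℝ)) ≤ ∑ A ∈ P.parts,
        (innerCut G A (T ∩ A) : ℝ) := by
      apply Finset.sum_le_sum
      intro A hA
      apply hP A hA _ inter_subset_right
      have := card_le_card (inter_subset_left (s₁ := T) (s₂ := A))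
      have := hTA A hA
      omega
    have h2 : (∑ A ∈ P.parts, (innerCut G A (T ∩ A) : ℝ)) ≤ cut G T := by
      exact_mod_cast cut_ge G P T
    have h3 : ∑ A ∈ P.parts, a * (d * ((T ∩ A).card : ℝ)) = a * (d * T.card) := by
      rw [← Finset.mul_sum, ← Finset.mul_sum]
      congr 2
      exact_mod_cast card_inter_parts P T
    linarith

end Pool.Agent.Results.MP_8d8c46_lc.UnionsOfExpanders
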